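import Pool.Agent.H.MP_54b62b_gt.Defs

namespace Pool.Agent.H.MP_e45129_gt

open Filter Topology Set

variable {G : Type} [AddCommGroup G]

/-- the set `(1/n) U` -/
def frac (n : ℕ) (U : Set G) : Set G := {x | ∀ k : ℕ, 1 ≤ k → k ≤ n → k • x ∈ U}

/-- GTG subset -/
def GTG (U : Set G) : Prop :=
  (∀ x ∈ U, -x ∈ U) ∧ 0 ∈ U ∧ ∃ σ : TopologicalSpace G, @IsTopologicalAddGroup G σ _ ∧
    (@nhds G σ 0).HasBasis (fun n => 1 ≤ n) fun n => frac n U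

variable (G) [τ : TopologicalSpace G]

/-- locally GTG -/
def LocGTG : Prop := ∀ V ∈ 𝓝 (0 : G), ∃ U ∈ 𝓝 (0 : G), U ⊆ V ∧ GTG U

/-- uniformly free from small subgroups -/
def UFSS : Prop :=
  ∃ U ∈ 𝓝 (0 : G), (∀ x ∈ U, -x ∈ U) ∧ (𝓝 (0 : G)).HasBasis (fun n => 1 ≤ n) fun n => frac n U

/-- minimal -/
def MinGrp : Prop :=
  ∀ σ : TopologicalSpace G, @IsTopologicalAddGroup G σ _ → @T2Space G σ → τ ≤ σ → σ = τ

end Pool.Agent.H.MP_e45129_gt
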